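import Pool.Agent.H86.DA.Stm

set_option autoImplicit false

/-!
# Fourier analysis on the residues modulo `b ^ K` (module CYC of project DA)
-/

namespace Pool.Agent.H37.DA

open Finset Complex

/-- orthogonality -/
lemma orth {M : ℕ} (hM : 0 < M) {ζ : ℂ} (hζ : IsPrimitiveRoot ζ M) {c a : ℕ} (hc : c < M)
    (ha : a < M) :
    ∑ r ∈ range M, (ζ ^ c * (ζ ^ a)⁻¹) ^ r = if c = a then (M : ℂ) else 0 := by
  have hζ0 : ζ ≠ 0 := hζ.ne_zero hM.ne'
  split_ifs with h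
  · subst h
    rw [mul_inv_cancel₀ (pow_ne_zero _ hζ0)]
    simp
  · have hq : ζ ^ c * (ζ ^ a)⁻¹ ≠ 1 := by
      intro h1
      apply h
      apply hζ.pow_inj hc ha
      rwa [mul_inv_eq_one₀ (pow_ne_zero _ hζ0)] at h1
    have hqM : (ζ ^ c * (ζ ^ a)⁻¹) ^ M = 1 := by
      rw [mul_pow, inv_pow, ← pow_mul, ← pow_mul, mul_comm c, mul_comm a, pow_mul, pow_mul,
        hζ.pow_eq_one, one_pow, one_pow, inv_one, mul_one]
    have h2 := mul_geom_sum (ζ ^ c * (ζ ^ a)⁻¹) M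
    rw [hqM, sub_self] at h2
    exact (mul_eq_zero.mp h2).resolve_left (sub_ne_zero.mpr hq)

/-- Parseval -/
lemma parseval {M : ℕ} (hM : 0 < M) {ζ : ℂ} (hζ : IsPrimitiveRoot ζ M) (hnorm : ‖ζ‖ = 1)
    (f : ℕ → ℝ) :
    ∑ r ∈ range M, ‖∑ x ∈ range M, (f x : ℂ) * (ζ ^ x) ^ r‖ ^ 2
      = M * ∑ x ∈ range M, f x ^ 2 := by
  have hconj : (starRingEnd ℂ) ζ = ζ⁻¹ := (Complex.inv_eq_conj hnorm).symm
  have h : ((∑ r ∈ range M, ‖∑ x ∈ range M, (f x : ℂ) * (ζ ^ x) ^ r‖ ^ 2 : ℝ) : ℂ) =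
      ((M * ∑ x ∈ range M, f x ^ 2 : ℝ) : ℂ) := by
    push_cast
    calc ∑ r ∈ range M, ((‖∑ x ∈ range M, (f x : ℂ) * (ζ ^ x) ^ r‖ : ℝ) : ℂ) ^ 2
        = ∑ r ∈ range M, ∑ x ∈ range M, ∑ y ∈ range M,
            (f x : ℂ) * f y * (ζ ^ x * (ζ ^ y)⁻¹) ^ r := by
          apply sum_congr rfl
          intro r _
          rw [← Complex.mul_conj', map_sum, sum_mul_sum]
          apply sum_congr rfl
          intro x _
          apply sum_congr rfl
          intro y _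
          rw [map_mul, map_pow, map_pow, hconj, Complex.conj_ofReal, mul_pow, inv_pow]
          ring
      _ = ∑ x ∈ range M, ∑ y ∈ range M,
            (f x : ℂ) * f y * ∑ r ∈ range M, (ζ ^ x * (ζ ^ y)⁻¹) ^ r := by
          rw [sum_comm]
          apply sum_congr rfl
          intro x _
          rw [sum_comm]
          apply sum_congr rfl
          intro y _
          rw [mul_sum]
      _ = ∑ x ∈ range M, (f x : ℂ) * f x * M := by
          apply sum_congr rfl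
          intro x hx
          rw [sum_congr rfl (fun y hy => by rw [orth hM hζ (mem_range.mp hx) (mem_range.mp hy)])]
          simp only [mul_ite, mul_zero]
          rw [sum_ite_eq, if_pos hx]
      _ = M * ∑ x ∈ range M, (f x : ℂ) ^ 2 := by
          rw [mul_sum]
          apply sum_congr rfl
          intro x _
          ring
  exact_mod_cast h

/-- the trilinear form in frequency space -/
lemma ident {M : ℕ} (hM : 0 < M) {ζ : ℂ} (hζ : IsPrimitiveRoot ζ M) (f g : ℕ → ℝ) (A : Finset ℕ)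
    (hA : A ⊆ range M) :
    (M : ℂ) * ((∑ x ∈ range M, ∑ y ∈ range M,
        f x * g y * (if (x + y) % M ∈ A then 1 else 0) : ℝ) : ℂ) =
      ∑ r ∈ range M, (∑ x ∈ range M, (f x : ℂ) * (ζ ^ x) ^ r) *
        (∑ y ∈ range M, (g y : ℂ) * (ζ ^ y) ^ r) * ∑ a ∈ A, ((ζ ^ a)⁻¹) ^ r := by
  symm
  calc ∑ r ∈ range M, (∑ x ∈ range M, (f x : ℂ) * (ζ ^ x) ^ r) *
        (∑ y ∈ range M, (g y : ℂ) * (ζ ^ y) ^ r) * ∑ a ∈ A, ((ζ ^ a)⁻¹) ^ r
      = ∑ r ∈ range M, ∑ x ∈ range M, ∑ y ∈ range M, ∑ a ∈ A,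
          (f x : ℂ) * g y * (ζ ^ ((x + y) % M) * (ζ ^ a)⁻¹) ^ r := by
        apply sum_congr rfl
        intro r _
        rw [sum_mul_sum, sum_mul]
        apply sum_congr rfl
        intro x _
        rw [sum_mul]
        apply sum_congr rfl
        intro y _
        rw [mul_sum]
        apply sum_congr rfl
        intro a _
        have h1 : ζ ^ ((x + y) % M) = ζ ^ x * ζ ^ y := by
          rw [← pow_add]
          exact (pow_eq_pow_mod (x + y) hζ.pow_eq_one).symm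
        rw [h1, mul_pow, mul_pow]
        ring
    _ = ∑ x ∈ range M, ∑ y ∈ range M, ∑ a ∈ A,
          (f x : ℂ) * g y * ∑ r ∈ range M, (ζ ^ ((x + y) % M) * (ζ ^ a)⁻¹) ^ r := by
        rw [sum_comm]
        apply sum_congr rfl
        intro x _
        rw [sum_comm]
        apply sum_congr rfl
        intro y _
        rw [sum_comm]
        apply sum_congr rfl
        intro a _
        rw [mul_sum]
    _ = ∑ x ∈ range M, ∑ y ∈ range M,
          (f x : ℂ) * g y * (if (x + y) % M ∈ A then (M : ℂ) else 0) := by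
        apply sum_congr rfl
        intro x _
        apply sum_congr rfl
        intro y _
        rw [sum_congr rfl (fun a ha => by
          rw [orth hM hζ (Nat.mod_lt _ hM) (mem_range.mp (hA ha))])]
        rw [← mul_sum, sum_ite_eq]
    _ = _ := by
        push_cast
        rw [mul_sum]
        apply sum_congr rfl
        intro x _
        rw [mul_sum]
        apply sum_congr rfl
        intro y _
        split_ifs
        · rw [ofReal_one]
          ring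
        · rw [ofReal_zero]
          ring

/-- a frequency different from zero is seen by a power of `b` -/
lemma freq {b K : ℕ} (hb : 2 ≤ b) {z : ℂ} (hz : z ^ b ^ K = 1) (hz1 : z ≠ 1) :
    ∃ e < K, 2 / (b : ℝ) ≤ ‖1 - z ^ b ^ e‖ := by
  by_contra hcon
  push Not at hcon
  have hπ := Real.pi_pos
  have hb0 : (0 : ℝ) < b := by
    have : 0 < b := by omega
    exact_mod_cast this
  have hbK : b ^ K ≠ 0 := pow_ne_zero _ (by omega)
  have hnorm : ‖z‖ = 1 := by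
    have h1 : ‖z‖ ^ b ^ K = 1 := by rw [← norm_pow, hz, norm_one]
    exact (pow_eq_one_iff_of_nonneg (norm_nonneg z) hbK).mp h1
  have hexp : z = exp (I * (z.arg : ℂ)) := by
    have h1 := Complex.norm_mul_exp_arg_mul_I z
    rw [hnorm, ofReal_one, one_mul] at h1
    rw [mul_comm]
    exact h1.symm
  have hpow : ∀ n : ℕ, z ^ n = exp (I * ((n * z.arg : ℝ) : ℂ)) := by
    intro n
    have h1 : z ^ n = exp (I * (z.arg : ℂ)) ^ n := congrArg (fun w : ℂ => w ^ n) hexp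
    rw [h1, ← exp_nat_mul]
    apply congrArg
    push_cast
    ring
  have key : ∀ n : ℕ, |(n : ℝ) * z.arg| ≤ Real.pi → ‖1 - z ^ n‖ < 2 / b →
      |(n : ℝ) * z.arg| * b ≤ Real.pi := by
    intro n hn h
    rw [hpow, norm_sub_rev, Complex.norm_exp_I_mul_ofReal_sub_one, Real.norm_eq_abs, abs_mul,
      abs_two] at h
    have h1 := Real.mul_abs_le_abs_sin (x := (n : ℝ) * z.arg / 2)
      (by rw [abs_div, abs_two]; linarith)
    rw [abs_div, abs_two] at h1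
    have h2 : 2 * (2 / Real.pi * (|(n : ℝ) * z.arg| / 2)) < 2 / b := by linarith
    have h3 : 2 * (2 / Real.pi * (|(n : ℝ) * z.arg| / 2)) = 2 * |(n : ℝ) * z.arg| / Real.pi := by
      field_simp
    rw [h3, div_lt_div_iff₀ hπ hb0] at h2
    linarith
  have hall : ∀ e ≤ K, |((b ^ e : ℕ) : ℝ) * z.arg| ≤ Real.pi := by
    intro e
    induction e with
    | zero =>
      intro _
      simpa using Complex.abs_arg_le_pi z
    | succ e ih =>
      intro he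
      have h1 := key (b ^ e) (ih (by omega)) (hcon e (by omega))
      have h2 : ((b ^ (e + 1) : ℕ) : ℝ) * z.arg = (((b ^ e : ℕ) : ℝ) * z.arg) * b := by
        push_cast
        ring
      rw [h2, abs_mul, Nat.abs_cast]
      exact h1
  have h1 := hall K le_rfl
  rw [hpow, Complex.exp_eq_one_iff] at hz
  obtain ⟨n, hn⟩ := hz
  have h2 : ((b ^ K : ℕ) : ℝ) * z.arg = n * (2 * Real.pi) := by
    have h3 : I * ((((b ^ K : ℕ) : ℝ) * z.arg : ℝ) : ℂ) = I * ((n * (2 * Real.pi) : ℝ) : ℂ) := by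
      rw [hn]
      push_cast
      ring
    have h4 := mul_left_cancel₀ I_ne_zero h3
    exact_mod_cast h4
  rw [h2, abs_mul, abs_of_pos (by positivity : (0 : ℝ) < 2 * Real.pi)] at h1
  have h3 : |(n : ℝ)| < 1 := by
    by_contra h4
    push Not at h4
    nlinarith
  have h4 : n = 0 := by
    rw [← Int.cast_abs] at h3
    have h5 : |n| < 1 := by exact_mod_cast h3
    exact Int.abs_lt_one_iff.mp h5
  rw [h4, Int.cast_zero, zero_mul] at h2
  have h5 : ((b ^ K : ℕ) : ℝ) ≠ 0 := by exact_mod_cast hbK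
  have h6 : z.arg = 0 := (mul_eq_zero.mp h2).resolve_left h5
  apply hz1
  rw [hexp, h6]
  simp

/-- the Fourier coefficients of a set which is almost invariant under a translation -/
lemma hatA {M : ℕ} {ζ : ℂ} (hζ : ζ ^ M = 1) (hn : ‖ζ‖ = 1) (A : Finset ℕ)
    (hA : A ⊆ range M) {s : ℕ} (hs : s ≤ M) (η : ℝ)
    (h : ((A.filter fun a => (a + (M - s)) % M ∉ A).card : ℝ) ≤ η) (r : ℕ) :
    ‖1 - (ζ ^ r) ^ s‖ * ‖∑ a ∈ A, ((ζ ^ a)⁻¹) ^ r‖ ≤ 2 * η := by
  classical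
  have hζ0 : ζ ≠ 0 := by
    intro h0
    rw [h0, norm_zero] at hn
    exact zero_ne_one hn
  set φ : ℕ → ℂ := fun a => ((ζ ^ a)⁻¹) ^ r with hφ
  set τ : ℕ → ℕ := fun a => (a + (M - s)) % M with hτ
  have hφn : ∀ a, ‖φ a‖ = 1 := by
    intro a
    rw [hφ]
    simp [hn]
  have hφτ : ∀ a, φ (τ a) = (ζ ^ r) ^ s * φ a := by
    intro a
    have h1 : ζ ^ τ a * ζ ^ s = ζ ^ a := by
      have h2 : ζ ^ τ a = ζ ^ (a + (M - s)) := (pow_eq_pow_mod (a + (M - s)) hζ).symm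
      rw [h2, ← pow_add, show a + (M - s) + s = a + M by omega, pow_add, hζ, mul_one]
    have h3 : (ζ ^ τ a)⁻¹ = ζ ^ s * (ζ ^ a)⁻¹ := by
      rw [← h1, mul_inv_rev, ← mul_assoc, mul_inv_cancel₀ (pow_ne_zero _ hζ0), one_mul]
    show ((ζ ^ τ a)⁻¹) ^ r = (ζ ^ r) ^ s * ((ζ ^ a)⁻¹) ^ r
    rw [h3, mul_pow, ← pow_mul, ← pow_mul, mul_comm s r]
  have hinj : Set.InjOn τ A := by
    intro a ha c hc hac
    have ha' := mem_range.mp (hA ha)
    have hc' := mem_range.mp (hA hc)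
    have h1 : (a + (M - s)) ≡ (c + (M - s)) [MOD M] := hac
    have h2 : a ≡ c [MOD M] := Nat.ModEq.add_right_cancel' _ h1
    have h3 : a % M = c % M := h2
    rwa [Nat.mod_eq_of_lt ha', Nat.mod_eq_of_lt hc'] at h3
  set B : Finset ℕ := A.image τ with hB
  have hcard : A.card = B.card := (card_image_of_injOn hinj).symm
  have hBA : ((B \ A).card : ℝ) ≤ η := by
    refine le_trans ?_ h
    have h1 : B \ A ⊆ (A.filter fun a => τ a ∉ A).image τ := by
      intro x hx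
      rw [mem_sdiff, hB, mem_image] at hx
      obtain ⟨⟨a, ha, rfl⟩, hx2⟩ := hx
      exact mem_image_of_mem _ (mem_filter.mpr ⟨ha, hx2⟩)
    exact_mod_cast (card_le_card h1).trans card_image_le
  have hAB : ((A \ B).card : ℝ) ≤ η := by
    have h1 : (A \ B).card = (B \ A).card := by
      have h2 := card_sdiff_add_card_inter A B
      have h3 := card_sdiff_add_card_inter B A
      rw [inter_comm] at h3
      omega
    rw [h1]
    exact hBA
  have hsum : ∑ a ∈ B, φ a = (ζ ^ r) ^ s * ∑ a ∈ A, φ a := by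
    rw [hB, sum_image hinj, mul_sum]
    exact sum_congr rfl fun a _ => hφτ a
  have hdiff : (1 - (ζ ^ r) ^ s) * ∑ a ∈ A, φ a = ∑ a ∈ A \ B, φ a - ∑ a ∈ B \ A, φ a := by
    rw [sub_mul, one_mul, ← hsum]
    exact (sum_sdiff_sub_sum_sdiff (f := φ)).symm
  rw [← norm_mul, hdiff]
  have hle : ∀ C : Finset ℕ, ‖∑ a ∈ C, φ a‖ ≤ C.card := by
    intro C
    calc ‖∑ a ∈ C, φ a‖ ≤ ∑ a ∈ C, ‖φ a‖ := norm_sum_le _ _
      _ = C.card := by simp [hφn]
  calc ‖∑ a ∈ A \ B, φ a - ∑ a ∈ B \ A, φ a‖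
      ≤ ‖∑ a ∈ A \ B, φ a‖ + ‖∑ a ∈ B \ A, φ a‖ := norm_sub_le _ _
    _ ≤ η + η := add_le_add ((hle _).trans hAB) ((hle _).trans hBA)
    _ = 2 * η := by ring

/-- **CYC.** -/
theorem cyc (b K : ℕ) (hb : 2 ≤ b) (f g : ℕ → ℝ) (A : Finset ℕ) (η : ℝ) (hη0 : 0 ≤ η)
    (hA : A ⊆ range (b ^ K))
    (hη : ∀ e < K, ((A.filter fun a => (a + (b ^ K - b ^ e)) % b ^ K ∉ A).card : ℝ) ≤
      η * (b : ℝ) ^ K) :
    |(∑ x ∈ range (b ^ K), ∑ y ∈ range (b ^ K),
        f x * g y * (if (x + y) % b ^ K ∈ A then 1 else 0)) -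
      (∑ x ∈ range (b ^ K), f x) * (∑ x ∈ range (b ^ K), g x) * A.card / (b : ℝ) ^ K| ≤
      b * η * (b : ℝ) ^ K * √(∑ x ∈ range (b ^ K), f x ^ 2) * √(∑ x ∈ range (b ^ K), g x ^ 2) := by
  have hM : 0 < b ^ K := pow_pos (by omega) K
  have hb0 : (0 : ℝ) < b := by
    have : 0 < b := by omega
    exact_mod_cast this
  have hMR : (0 : ℝ) < (b : ℝ) ^ K := pow_pos hb0 K
  have hcast : ((b ^ K : ℕ) : ℝ) = (b : ℝ) ^ K := by push_cast; rfl
  obtain ⟨ζ, hζ⟩ : ∃ ζ : ℂ, IsPrimitiveRoot ζ (b ^ K) :=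
    ⟨_, Complex.isPrimitiveRoot_exp (b ^ K) hM.ne'⟩
  have hn : ‖ζ‖ = 1 := by
    have h1 : ‖ζ‖ ^ b ^ K = 1 := by rw [← norm_pow, hζ.pow_eq_one, norm_one]
    exact (pow_eq_one_iff_of_nonneg (norm_nonneg ζ) hM.ne').mp h1
  -- the Fourier coefficients of `A`
  have hhat : ∀ r, 0 < r → r < b ^ K → ‖∑ a ∈ A, ((ζ ^ a)⁻¹) ^ r‖ ≤ b * η * (b : ℝ) ^ K := by
    intro r hr0 hr
    have hz : (ζ ^ r) ^ b ^ K = 1 := by
      rw [← pow_mul, mul_comm, pow_mul, hζ.pow_eq_one, one_pow]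
    have hz1 : ζ ^ r ≠ 1 := hζ.pow_ne_one_of_pos_of_lt hr0.ne' hr
    obtain ⟨e, he, hle⟩ := freq hb hz hz1
    have h1 := hatA hζ.pow_eq_one hn A hA (s := b ^ e)
      (Nat.pow_le_pow_right (by omega) he.le) (η * (b : ℝ) ^ K) (hη e he) r
    have h2 : 2 / (b : ℝ) * ‖∑ a ∈ A, ((ζ ^ a)⁻¹) ^ r‖ ≤ 2 * (η * (b : ℝ) ^ K) :=
      (mul_le_mul_of_nonneg_right hle (norm_nonneg _)).trans h1
    rw [div_mul_eq_mul_div, div_le_iff₀ hb0] at h2
    linarith
  set F : ℕ → ℂ := fun r => ∑ x ∈ range (b ^ K), (f x : ℂ) * (ζ ^ x) ^ r with hF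
  set G : ℕ → ℂ := fun r => ∑ x ∈ range (b ^ K), (g x : ℂ) * (ζ ^ x) ^ r with hG
  set H : ℕ → ℂ := fun r => ∑ a ∈ A, ((ζ ^ a)⁻¹) ^ r with hH
  have hPF : ∑ r ∈ range (b ^ K), ‖F r‖ ^ 2 = (b : ℝ) ^ K * ∑ x ∈ range (b ^ K), f x ^ 2 := by
    rw [← hcast]
    exact parseval hM hζ hn f
  have hPG : ∑ r ∈ range (b ^ K), ‖G r‖ ^ 2 = (b : ℝ) ^ K * ∑ x ∈ range (b ^ K), g x ^ 2 := by
    rw [← hcast]
    exact parseval hM hζ hn g
  set S : ℝ := ∑ x ∈ range (b ^ K), ∑ y ∈ range (b ^ K),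
    f x * g y * (if (x + y) % b ^ K ∈ A then 1 else 0) with hS
  have hid : ((b ^ K : ℕ) : ℂ) * (S : ℂ) = ∑ r ∈ range (b ^ K), F r * G r * H r :=
    ident hM hζ f g A hA
  have h0 : F 0 * G 0 * H 0 =
      (((∑ x ∈ range (b ^ K), f x) * (∑ x ∈ range (b ^ K), g x) * A.card : ℝ) : ℂ) := by
    simp [hF, hG, hH]
  have hdiff : ((b ^ K : ℕ) : ℂ) * (S : ℂ) - F 0 * G 0 * H 0 =
      ∑ r ∈ (range (b ^ K)).erase 0, F r * G r * H r := by
    rw [hid, ← add_sum_erase _ _ (mem_range.mpr hM)]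
    ring
  have hC : 0 ≤ b * η * (b : ℝ) ^ K := by positivity
  have hbound : ‖((b ^ K : ℕ) : ℂ) * (S : ℂ) - F 0 * G 0 * H 0‖ ≤
      b * η * (b : ℝ) ^ K * ∑ r ∈ range (b ^ K), ‖F r‖ * ‖G r‖ := by
    rw [hdiff]
    calc ‖∑ r ∈ (range (b ^ K)).erase 0, F r * G r * H r‖
        ≤ ∑ r ∈ (range (b ^ K)).erase 0, ‖F r * G r * H r‖ := norm_sum_le _ _
      _ ≤ ∑ r ∈ (range (b ^ K)).erase 0, b * η * (b : ℝ) ^ K * (‖F r‖ * ‖G r‖) := by
          apply sum_le_sum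
          intro r hr
          rw [mem_erase, mem_range] at hr
          rw [norm_mul, norm_mul, mul_comm (b * η * (b : ℝ) ^ K)]
          exact mul_le_mul_of_nonneg_left (hhat r (Nat.pos_of_ne_zero hr.1) hr.2) (by positivity)
      _ ≤ ∑ r ∈ range (b ^ K), b * η * (b : ℝ) ^ K * (‖F r‖ * ‖G r‖) := by
          apply sum_le_sum_of_subset_of_nonneg (erase_subset _ _)
          intro r _ _
          positivity
      _ = _ := by rw [mul_sum]
  have hCS : ∑ r ∈ range (b ^ K), ‖F r‖ * ‖G r‖ ≤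
      (b : ℝ) ^ K * (√(∑ x ∈ range (b ^ K), f x ^ 2) * √(∑ x ∈ range (b ^ K), g x ^ 2)) := by
    have h1 := Real.sum_mul_le_sqrt_mul_sqrt (range (b ^ K)) (fun r => ‖F r‖) (fun r => ‖G r‖)
    rw [hPF, hPG, Real.sqrt_mul hMR.le, Real.sqrt_mul hMR.le] at h1
    refine h1.trans (le_of_eq ?_)
    calc _ = (√((b : ℝ) ^ K) * √((b : ℝ) ^ K)) *
          (√(∑ x ∈ range (b ^ K), f x ^ 2) * √(∑ x ∈ range (b ^ K), g x ^ 2)) := by ring
      _ = _ := by rw [Real.mul_self_sqrt hMR.le]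
  rw [h0] at hbound
  have hreal : ((b ^ K : ℕ) : ℂ) * (S : ℂ) -
      (((∑ x ∈ range (b ^ K), f x) * (∑ x ∈ range (b ^ K), g x) * A.card : ℝ) : ℂ) =
      (((b : ℝ) ^ K * (S - (∑ x ∈ range (b ^ K), f x) * (∑ x ∈ range (b ^ K), g x) * A.card /
        (b : ℝ) ^ K) : ℝ) : ℂ) := by
    rw [mul_sub, mul_div_cancel₀ _ hMR.ne']
    push_cast
    ring
  rw [hreal, Complex.norm_real, Real.norm_eq_abs, abs_mul, abs_of_pos hMR] at hbound
  have h2 := hbound.trans (mul_le_mul_of_nonneg_left hCS hC)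
  have h3 : (b : ℝ) ^ K * |S - (∑ x ∈ range (b ^ K), f x) * (∑ x ∈ range (b ^ K), g x) * A.card /
      (b : ℝ) ^ K| ≤ (b : ℝ) ^ K * (b * η * (b : ℝ) ^ K * √(∑ x ∈ range (b ^ K), f x ^ 2) *
        √(∑ x ∈ range (b ^ K), g x ^ 2)) := by
    refine h2.trans (le_of_eq ?_)
    ring
  exact le_of_mul_le_mul_left h3 hMR

end Pool.Agent.H37.DA
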