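import Pool.Agent.H37.DA.Cyc

set_option autoImplicit false

namespace Pool.Agent.H37.DA

theorem cycS : Pool.Agent.H86.DA.S_CYC :=
  fun b K hb f g A η hA h0 hη => cyc b K hb f g A η h0 hA hη

end Pool.Agent.H37.DA
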